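import Pool.Agent.H37.SP.BVL
import Pool.Agent.H14.SP.PC
import Pool.Agent.H18.SP.GRE
import Pool.Agent.H18.SP.PRA
import Pool.Agent.H18.SP.SOL
import Pool.Agent.H69.SP.Har
import Pool.Agent.H8.SP.CLS
import Pool.Agent.H8.SP.INJ
import Pool.Agent.H8.SP.MOM
import Pool.Agent.H81.SP.FIN
import Pool.Agent.H81.SP.TAU
import Pool.Agent.H91.SP.PhiMul
import Pool.Agent.H78.SP.CMB
import Pool.Agent.H37.SP.Par

/-!
# The integers `k` with few multisets of `k` positive integers whose product equals their sum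

`N k` is the number of multisets of `k` positive integers whose product equals their sum.  We show
that the integers `k ≤ x` with `N k ≤ (log x) ^ B` are at most `x exp (- (log x) ^ (1 - ε))`.
-/

set_option autoImplicit false

namespace Pool.Agent.Results.MP_0cd084_nt.SparseExceptions

/-- the number of multisets of `k` positive integers whose product equals their sum -/
noncomputable def N (k : ℕ) : ℕ :=
  Set.ncard {s : Multiset ℕ | Multiset.card s = k ∧ (∀ a ∈ s, 0 < a) ∧ s.prod = s.sum}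

/-- For all real `B` and `ε > 0` and all sufficiently large real `x`, the number of integers
`1 ≤ k ≤ x` with `N k ≤ (log x) ^ B` is at most `x exp (- (log x) ^ (1 - ε))`. -/
theorem result (B ε : ℝ) (hε : 0 < ε) : ∃ x0 : ℝ, ∀ x : ℝ, x0 ≤ x →
    ({k : ℕ | 1 ≤ k ∧ (k : ℝ) ≤ x ∧ (N k : ℝ) ≤ Real.log x ^ B}.ncard : ℝ) ≤
      x * Real.exp (-(Real.log x ^ (1 - ε))) := by
  have hbvl := Pool.Agent.H37.SP.BVLaux.t_BVL Pool.Agent.H81.SP.t_TAU H91.SP.t_PHI H91.SP.t_MUL
    Pool.Agent.H69.SP.t_BND (Pool.Agent.H69.SP.t_BOX Pool.Agent.H69.SP.t_HAR)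
  have hmom := Pool.Agent.H8.SP.t_MOM H14.SP.t_PER H14.SP.t_CRT Pool.Agent.H18.SP.t_PRA
  have hcmb := Pool.Agent.H78.SP.t_CMB Pool.Agent.H18.SP.t_SOL
    (Pool.Agent.H69.SP.t_NGE Pool.Agent.H81.SP.t_FIN)
    (Pool.Agent.H8.SP.t_CLS Pool.Agent.H8.SP.t_INJ Pool.Agent.H69.SP.t_BND)
    hmom Pool.Agent.H18.SP.t_GRE
  exact Pool.Agent.H37.SP.Paux.t_PAR hbvl hcmb B ε hε

end Pool.Agent.Results.MP_0cd084_nt.SparseExceptions
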